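import Pool.Agent.helper90.ZD.SpecB

set_option autoImplicit false

open Complex MeasureTheory
open scoped ComplexOrder

namespace Pool.Agent.ZD

theorem BS2_hold {ι : Type} (s : Finset ι) (lam g : ι → ℝ) (hl : ∀ i ∈ s, 0 ≤ lam i)
    (hg : ∀ i ∈ s, 0 ≤ g i) :
    ∑ i ∈ s, lam i * g i ≤ (∑ i ∈ s, lam i ^ 3) ^ (1 / 3 : ℝ) *
      ((∑ i ∈ s, g i) ^ (1 / 3 : ℝ) * (∑ i ∈ s, g i ^ 2) ^ (1 / 3 : ℝ)) := by
  have hpq : (3 : ℝ).HolderConjugate (3 / 2) := by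
    rw [Real.holderConjugate_iff]
    constructor <;> norm_num
  have h1 := Real.inner_le_Lp_mul_Lq_of_nonneg s hpq hl hg
  have e1 : ∑ i ∈ s, lam i ^ (3 : ℝ) = ∑ i ∈ s, lam i ^ 3 := by
    refine Finset.sum_congr rfl fun i _ => ?_
    rw [← Real.rpow_natCast]
    norm_num
  rw [e1] at h1
  refine h1.trans ?_
  have ha : 0 ≤ (∑ i ∈ s, lam i ^ 3) ^ (1 / 3 : ℝ) :=
    Real.rpow_nonneg (Finset.sum_nonneg fun i hi => pow_nonneg (hl i hi) 3) _
  refine mul_le_mul_of_nonneg_left ?_ ha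
  set K := ∑ i ∈ s, g i ^ (3 / 2 : ℝ) with hK
  have hK0 : 0 ≤ K := Finset.sum_nonneg fun i hi => Real.rpow_nonneg (hg i hi) _
  have hK1 : K = ∑ i ∈ s, Real.sqrt (g i) * g i := by
    refine Finset.sum_congr rfl fun i hi => ?_
    rcases eq_or_lt_of_le (hg i hi) with h0 | h0
    · rw [← h0]
      rw [Real.zero_rpow (by norm_num)]
      simp
    · rw [Real.sqrt_eq_rpow, show (3 / 2 : ℝ) = 1 / 2 + 1 by norm_num, Real.rpow_add h0,
        Real.rpow_one]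
  have hK2 : K ^ 2 ≤ (∑ i ∈ s, g i) * ∑ i ∈ s, g i ^ 2 := by
    rw [hK1]
    refine (Finset.sum_mul_sq_le_sq_mul_sq s (fun i => Real.sqrt (g i)) g).trans (le_of_eq ?_)
    congr 1
    exact Finset.sum_congr rfl fun i hi => Real.sq_sqrt (hg i hi)
  have hb : 0 ≤ ∑ i ∈ s, g i := Finset.sum_nonneg hg
  have hc : 0 ≤ ∑ i ∈ s, g i ^ 2 := Finset.sum_nonneg fun i _ => sq_nonneg _
  rw [← Real.mul_rpow hb hc]
  have e2 : K ^ (1 / (3 / 2) : ℝ) = (K ^ 2) ^ (1 / 3 : ℝ) := by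
    rw [← Real.rpow_natCast, ← Real.rpow_mul hK0]
    norm_num
  rw [e2]
  exact Real.rpow_le_rpow (sq_nonneg _) hK2 (by norm_num)

theorem BS2 : BS2_stmt := by
  intro ι _ lam g μ hμ hl hg hs
  have hF : ∑ i, lam i ^ 3 - (Fintype.card ι : ℝ) * μ ^ 3 =
      ∑ i, (lam i - μ) ^ 2 * (lam i + 2 * μ) := by
    have e1 : ∀ i, (lam i - μ) ^ 2 * (lam i + 2 * μ) =
        lam i ^ 3 - 3 * μ ^ 2 * lam i + 2 * μ ^ 3 := fun i => by ring
    rw [Finset.sum_congr rfl fun i _ => e1 i, Finset.sum_add_distrib, Finset.sum_sub_distrib,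
      ← Finset.mul_sum, hs, Finset.sum_const, Finset.card_univ, nsmul_eq_mul]
    ring
  have hterm : ∀ i, 0 ≤ (lam i - μ) ^ 2 * (lam i + 2 * μ) := fun i =>
    mul_nonneg (sq_nonneg _) (by have := hl i; linarith)
  have hF0 : 0 ≤ ∑ i, (lam i - μ) ^ 2 * (lam i + 2 * μ) := Finset.sum_nonneg fun i _ => hterm i
  refine ⟨by rw [hF]; exact hF0, ?_⟩
  rw [hF]
  classical
  set S : Finset ι := Finset.univ.filter fun i => lam i ≤ 2 * μ with hS
  set S' : Finset ι := Finset.univ.filter fun i => ¬ lam i ≤ 2 * μ with hS'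
  rw [← Finset.sum_filter_add_sum_filter_not Finset.univ (fun i => lam i ≤ 2 * μ)
    (fun i => lam i * g i)]
  have hg0 : 0 ≤ ∑ i, g i := Finset.sum_nonneg fun i _ => hg i
  have hg2 : 0 ≤ ∑ i, g i ^ 2 := Finset.sum_nonneg fun i _ => sq_nonneg _
  have p1 : ∑ i ∈ S, lam i * g i ≤ 2 * μ * ∑ i, g i := by
    calc ∑ i ∈ S, lam i * g i ≤ ∑ i ∈ S, 2 * μ * g i :=
          Finset.sum_le_sum fun i hi => mul_le_mul_of_nonneg_right (Finset.mem_filter.1 hi).2 (hg i)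
      _ = 2 * μ * ∑ i ∈ S, g i := by rw [Finset.mul_sum]
      _ ≤ 2 * μ * ∑ i, g i :=
          mul_le_mul_of_nonneg_left (Finset.sum_le_univ_sum_of_nonneg hg) (by linarith)
  have p2 : ∑ i ∈ S', lam i ^ 3 ≤ 4 * ∑ i, (lam i - μ) ^ 2 * (lam i + 2 * μ) := by
    calc ∑ i ∈ S', lam i ^ 3 ≤ ∑ i ∈ S', 4 * ((lam i - μ) ^ 2 * (lam i + 2 * μ)) := by
          refine Finset.sum_le_sum fun i hi => ?_
          have h1 : 2 * μ < lam i := not_le.1 (Finset.mem_filter.1 hi).2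
          have h2 := hl i
          have h3 : (lam i / 2) ^ 2 ≤ (lam i - μ) ^ 2 :=
            pow_le_pow_left₀ (by linarith) (by linarith) 2
          have h4 : lam i ≤ lam i + 2 * μ := by linarith
          have h5 : (lam i / 2) ^ 2 * lam i ≤ (lam i - μ) ^ 2 * (lam i + 2 * μ) :=
            mul_le_mul h3 h4 h2 (sq_nonneg _)
          nlinarith [h5]
      _ = 4 * ∑ i ∈ S', (lam i - μ) ^ 2 * (lam i + 2 * μ) := by rw [Finset.mul_sum]
      _ ≤ 4 * ∑ i, (lam i - μ) ^ 2 * (lam i + 2 * μ) :=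
          mul_le_mul_of_nonneg_left (Finset.sum_le_univ_sum_of_nonneg hterm) (by norm_num)
  have p3 := BS2_hold S' lam g (fun i _ => hl i) (fun i _ => hg i)
  have n1 : 0 ≤ ∑ i ∈ S', lam i ^ 3 := Finset.sum_nonneg fun i _ => pow_nonneg (hl i) 3
  have n2 : 0 ≤ ∑ i ∈ S', g i := Finset.sum_nonneg fun i _ => hg i
  have n3 : 0 ≤ ∑ i ∈ S', g i ^ 2 := Finset.sum_nonneg fun i _ => sq_nonneg _
  have p4 : ∑ i ∈ S', lam i * g i ≤
      (4 * ∑ i, (lam i - μ) ^ 2 * (lam i + 2 * μ)) ^ (1 / 3 : ℝ) *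
      (∑ i, g i) ^ (1 / 3 : ℝ) * (∑ i, g i ^ 2) ^ (1 / 3 : ℝ) := by
    refine p3.trans ?_
    rw [mul_assoc]
    refine mul_le_mul (Real.rpow_le_rpow n1 p2 (by norm_num)) ?_
      (mul_nonneg (Real.rpow_nonneg n2 _) (Real.rpow_nonneg n3 _))
      (Real.rpow_nonneg (mul_nonneg (by norm_num) hF0) _)
    exact mul_le_mul
      (Real.rpow_le_rpow n2 (Finset.sum_le_univ_sum_of_nonneg hg) (by norm_num))
      (Real.rpow_le_rpow n3 (Finset.sum_le_univ_sum_of_nonneg fun i => sq_nonneg _) (by norm_num))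
      (Real.rpow_nonneg n3 _) (Real.rpow_nonneg hg0 _)
  linarith

end Pool.Agent.ZD
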